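import Pool.Agent.Lib.MP_e6d6ae_co.Steps

/-!
# The induction

`HJ b`: every set of at least two vertices is a join of two nonempty sets. Then every set of at least
two vertices has a majority partition with parts of at most half the size.
-/

set_option autoImplicit false
set_option linter.unusedSectionVars false

open Finset

namespace Pool.Agent.Lib.MP_e6d6ae_co

variable {V : Type*} [DecidableEq V] {b : V → V → Bool} {t : Bool}

/-- `G` is a join by the colour `s` -/
def IsJ (b : V → V → Bool) (s : Bool) (G : Finset V) : Prop :=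
  ∃ A B : Finset V, A.Nonempty ∧ B.Nonempty ∧ Disjoint A B ∧ A ∪ B = G ∧ Jn b s A B

/-- every set of at least two vertices is a join -/
def HJ (b : V → V → Bool) : Prop := ∀ G : Finset V, 2 ≤ G.card → ∃ s, IsJ b s G

theorem IsJ.not_both (hs : ∀ u v, b u v = b v u) {G : Finset V} (h : IsJ b t G)
    (h' : IsJ b (!t) G) : False := by
  obtain ⟨A, B, ⟨a, ha⟩, ⟨a', ha'⟩, hd, rfl, hj⟩ := h
  obtain ⟨C, D, ⟨c, hc⟩, ⟨c', hc'⟩, hd', hu, hj'⟩ := h'
  have hne : ∀ x : Bool, x ≠ !x := by decide
  have key : ∀ x y, x ∈ A → y ∈ B → x ∈ C → y ∈ D → False := by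
    intro x y h1 h2 h3 h4
    have := hj x h1 y h2
    rw [hj' x h3 y h4] at this
    exact hne t this.symm
  have key' : ∀ x y, x ∈ A → y ∈ B → x ∈ D → y ∈ C → False := by
    intro x y h1 h2 h3 h4
    have := hj x h1 y h2
    rw [hs, hj' y h4 x h3] at this
    exact hne t this.symm
  have hAm : ∀ x, x ∈ A → x ∈ C ∨ x ∈ D := fun x hx => by
    rw [← Finset.mem_union, hu]; exact Finset.mem_union_left _ hx
  have hBm : ∀ x, x ∈ B → x ∈ C ∨ x ∈ D := fun x hx => by
    rw [← Finset.mem_union, hu]; exact Finset.mem_union_right _ hx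
  have hCm : ∀ x, x ∈ C → x ∈ A ∨ x ∈ B := fun x hx => by
    rw [← Finset.mem_union, ← hu]; exact Finset.mem_union_left _ hx
  have hDm : ∀ x, x ∈ D → x ∈ A ∨ x ∈ B := fun x hx => by
    rw [← Finset.mem_union, ← hu]; exact Finset.mem_union_right _ hx
  rcases hAm a ha with h1 | h1 <;> rcases hBm a' ha' with h2 | h2
  · -- a ∈ C, a' ∈ C
    rcases hDm c' hc' with h3 | h3
    · exact key' c' a' h3 ha' hc' h2
    · exact key a c' ha h3 h1 hc'
  · exact key a a' ha ha' h1 h2
  · exact key' a a' ha ha' h1 h2
  · rcases hCm c hc with h3 | h3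
    · exact key c a' h3 ha' hc h2
    · exact key' a c ha h3 h1 hc

theorem IsJ.not_clq {G : Finset V} (h : IsJ b t G) : ¬ Clq b (!t) G := by
  obtain ⟨A, B, ⟨a, ha⟩, ⟨c, hc⟩, hd, rfl, hj⟩ := h
  intro hq
  have h1 := hj a ha c hc
  have h2 := hq a (Finset.mem_union_left _ ha) c (Finset.mem_union_right _ hc) (fun h =>
    Finset.disjoint_left.mp hd ha (h ▸ hc))
  rw [h1] at h2
  cases t <;> simp at h2

theorem Clq.sub {G G' : Finset V} (h : Clq b t G) (hs : G' ⊆ G) : Clq b t G' :=
  fun u hu v hv huv => h u (hs hu) v (hs hv) huv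

theorem two_le_of_not_clq {G : Finset V} (h : ¬ Clq b t G) : 2 ≤ G.card := by
  by_contra hc
  apply h
  intro u hu v hv huv
  have : 1 < G.card := Finset.one_lt_card.mpr ⟨u, hu, v, hv, huv⟩
  omega

/-- The decomposition of `G` into the vertices `S` joined to all others by `s`, and the rest `T`. -/
theorem dec (hs : ∀ u v, b u v = b v u) (H : HJ b) (s : Bool) (G : Finset V) :
    ∃ S T : Finset V, Disjoint T S ∧ T ∪ S = G ∧ Clq b s S ∧ Jn b s T S ∧
      (T = ∅ ∨ (2 ≤ T.card ∧ IsJ b (!s) T) ∨
        ∃ A B : Finset V, Disjoint A B ∧ A ∪ B = T ∧ Jn b s A B ∧ ¬ Clq b s A ∧ ¬ Clq b s B) := by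
  set S := G.filter (fun v => ∀ w ∈ G, w ≠ v → b v w = s) with hS
  set T := G \ S with hT
  have hSm : ∀ v, v ∈ S ↔ v ∈ G ∧ ∀ w ∈ G, w ≠ v → b v w = s := by
    intro v; rw [hS, Finset.mem_filter]
  have hTm : ∀ v, v ∈ T ↔ v ∈ G ∧ v ∉ S := by intro v; rw [hT, Finset.mem_sdiff]
  have hclS : Clq b s S := fun u hu v hv huv =>
    ((hSm u).mp hu).2 v ((hSm v).mp hv).1 huv.symm
  have hjTS : Jn b s T S := fun u hu v hv => by
    rw [hs]
    exact ((hSm v).mp hv).2 u ((hTm u).mp hu).1 (fun h => ((hTm u).mp hu).2 (h ▸ hv))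
  -- a vertex of `T` which is joined to the rest of `T` by `s` does not exist
  have hno : ∀ v ∈ T, ∃ w ∈ T, w ≠ v ∧ b v w ≠ s := by
    intro v hv
    by_contra hcon
    push Not at hcon
    apply ((hTm v).mp hv).2
    rw [hSm]
    refine ⟨((hTm v).mp hv).1, fun w hw hwv => ?_⟩
    by_cases hwS : w ∈ S
    · exact hjTS v hv w hwS
    · exact hcon w ((hTm w).mpr ⟨hw, hwS⟩) hwv
  refine ⟨S, T, ?_, ?_, hclS, hjTS, ?_⟩
  · exact Finset.sdiff_disjoint
  · rw [hT]; exact Finset.sdiff_union_of_subset (Finset.filter_subset _ _)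
  rcases Finset.eq_empty_or_nonempty T with h0 | ⟨v, hv⟩
  · exact Or.inl h0
  right
  obtain ⟨w, hw, hwv, -⟩ := hno v hv
  have h2 : 2 ≤ T.card := Finset.one_lt_card.mpr ⟨w, hw, v, hv, hwv⟩
  obtain ⟨s', hJ⟩ := H T h2
  by_cases hss : s' = s
  · right
    subst hss
    obtain ⟨A, B, hA, hB, hd, hu, hj⟩ := hJ
    refine ⟨A, B, hd, hu, hj, ?_, ?_⟩
    · intro hq
      obtain ⟨a, ha⟩ := hA
      obtain ⟨w, hw, hwa, hb⟩ := hno a (hu ▸ Finset.mem_union_left _ ha)
      rw [← hu] at hw
      rcases Finset.mem_union.mp hw with h | h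
      · exact hb (hq a ha w h hwa.symm)
      · exact hb (hj a ha w h)
    · intro hq
      obtain ⟨a, ha⟩ := hB
      obtain ⟨w, hw, hwa, hb⟩ := hno a (hu ▸ Finset.mem_union_right _ ha)
      rw [← hu] at hw
      rcases Finset.mem_union.mp hw with h | h
      · apply hb; rw [hs]; exact hj w h a ha
      · exact hb (hq a ha w h hwa.symm)
  · left
    refine ⟨h2, ?_⟩
    have : s' = !s := by cases s <;> cases s' <;> simp_all
    rwa [this] at hJ

theorem Jn.symm (hs : ∀ u v, b u v = b v u) {A B : Finset V} (h : Jn b t A B) : Jn b t B A :=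
  fun u hu v hv => by rw [hs]; exact h v hv u hu

theorem Jn.union {A B C : Finset V} (h : Jn b t A B) (h' : Jn b t A C) : Jn b t A (B ∪ C) :=
  fun u hu v hv => by
    rcases Finset.mem_union.mp hv with h1 | h1
    · exact h u hu v h1
    · exact h' u hu v h1

theorem Jn.sub {A B A' B' : Finset V} (h : Jn b t A B) (hA : A' ⊆ A) (hB : B' ⊆ B) : Jn b t A' B' :=
  fun u hu v hv => h u (hA hu) v (hB hv)

/-- what is proved for all sets of at most `n` vertices -/
def All (b : V → V → Bool) (G : Finset V) : Prop :=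
  (2 ≤ G.card → P0 b true G) ∧
  (∀ t, 2 ≤ G.card → ¬ (Clq b (!t) G ∧ Odd G.card) → P1 b t G) ∧
  (∀ t, 3 ≤ G.card → ¬ Clq b (!t) G → NN b t G)

/-- (D0) -/
theorem NN.d0 (hs : ∀ u v, b u v = b v u) (H : HJ b) {F : Finset V} {x : V} (hF : IsJ b t F)
    (hF2 : 2 ≤ F.card) (hdx : Disjoint F {x}) (hjx : Jn b (!t) F {x})
    (ih : ∀ G : Finset V, G.card < F.card + 1 → All b G) : NN b t (F ∪ {x}) := by
  obtain ⟨S, T, hd, rfl, hS, hj, hT⟩ := dec hs H t F
  have hsubT : T ⊆ T ∪ S := Finset.subset_union_left
  have hsubS : S ⊆ T ∪ S := Finset.subset_union_right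
  have hc : (T ∪ S).card = T.card + S.card := Finset.card_union_of_disjoint hd
  rcases hT with rfl | ⟨hT2, hTJ⟩ | ⟨A, B, hAB, hABu, hjAB, hA, hB⟩
  · rw [Finset.empty_union] at *
    exact NN.d0a hs hS hF2 hdx hjx
  · have hS0 : S.Nonempty := by
      rw [Finset.nonempty_iff_ne_empty]
      rintro rfl
      rw [Finset.union_empty] at hF
      exact hF.not_both hs hTJ
    have hnc : ¬ Clq b t T := by
      have := hTJ.not_clq
      rwa [Bool.not_not] at this
    have hjTx : Jn b (!t) T {x} := hjx.sub hsubT (Finset.Subset.refl _)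
    have hdTx : Disjoint T {x} := hdx.mono_left hsubT
    rcases Nat.even_or_odd S.card with he | ho
    · have hcx : (T ∪ {x}).card = T.card + 1 := by
        rw [Finset.card_union_of_disjoint hdTx, Finset.card_singleton]
      have hSc : 1 ≤ S.card := hS0.card_pos
      by_cases hq : Clq b (!t) (T ∪ {x}) ∧ Odd (T ∪ {x}).card
      · have hTe : Even T.card := by
          have := hq.2
          rw [hcx] at this
          rcases Nat.even_or_odd T.card with h | h
          · exact h
          · exfalso
            rw [Nat.odd_iff] at this h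
            omega
        exact NN.d0d_clique hs (hq.1.sub Finset.subset_union_left) hTe
          (Finset.card_pos.mp (by omega)) hS he hS0 hd hj hdx hjx
      · have hP := (ih (T ∪ {x}) (by omega)).2.1 t (by omega) hq
        exact NN.d0d_even hs hP hdTx hjTx hS he hS0 hd hj hdx hjx
    · have hP : P1 b (!t) T := by
        refine (ih T (by omega)).2.1 (!t) hT2 ?_
        rw [Bool.not_not]
        exact fun h => hnc h.1
      exact NN.d0d_odd hs hP hS ho hd hj hdx hjx
  · subst hABu
    have hA2 := two_le_of_not_clq hA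
    have hB2 := two_le_of_not_clq hB
    have hcAB : (A ∪ B).card = A.card + B.card := Finset.card_union_of_disjoint hAB
    -- the sets `B ∪ S` and `A ∪ S`
    have hdBS : Disjoint B S := hd.mono_left Finset.subset_union_right
    have hdAS : Disjoint A S := hd.mono_left Finset.subset_union_left
    have hcBS : (B ∪ S).card = B.card + S.card := Finset.card_union_of_disjoint hdBS
    have hcAS : (A ∪ S).card = A.card + S.card := Finset.card_union_of_disjoint hdAS
    have hnBS : ¬ Clq b t (B ∪ S) := fun h => hB (h.sub Finset.subset_union_left)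
    have hnAS : ¬ Clq b t (A ∪ S) := fun h => hA (h.sub Finset.subset_union_left)
    have hjA : Jn b t A (B ∪ S) := hjAB.union (hj.sub Finset.subset_union_left (Finset.Subset.refl _))
    have hjB : Jn b t B (A ∪ S) :=
      (hjAB.symm hs).union (hj.sub Finset.subset_union_right (Finset.Subset.refl _))
    have hdA : Disjoint A (B ∪ S) := Finset.disjoint_union_right.mpr ⟨hAB, hdAS⟩
    have hdB : Disjoint B (A ∪ S) := Finset.disjoint_union_right.mpr ⟨hAB.symm, hdBS⟩
    have e1 : A ∪ B ∪ S = A ∪ (B ∪ S) := Finset.union_assoc _ _ _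
    have e2 : A ∪ B ∪ S = B ∪ (A ∪ S) := by
      rw [Finset.union_comm A B, Finset.union_assoc]
    have pBS : P1 b (!t) (B ∪ S) := by
      refine (ih (B ∪ S) (by omega)).2.1 (!t) (by omega) ?_
      rw [Bool.not_not]; exact fun h => hnBS h.1
    have pAS : P1 b (!t) (A ∪ S) := by
      refine (ih (A ∪ S) (by omega)).2.1 (!t) (by omega) ?_
      rw [Bool.not_not]; exact fun h => hnAS h.1
    by_cases hA' : A.card = 2
    · have hAq : Clq b (!t) A := (Clq.of_card_two hs hA' t).resolve_left hA
      rw [e1] at hdx hjx ⊢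
      exact NN.d0c hs hAq hA' pBS hdA hjA hdx hjx
    by_cases hB' : B.card = 2
    · have hBq : Clq b (!t) B := (Clq.of_card_two hs hB' t).resolve_left hB
      rw [e2] at hdx hjx ⊢
      exact NN.d0c hs hBq hB' pAS hdB hjB hdx hjx
    · have nA : NN b (!t) A := by
        refine (ih A (by omega)).2.2 (!t) (by omega) ?_
        rw [Bool.not_not]; exact hA
      have nB : NN b (!t) (B ∪ S) := by
        refine (ih (B ∪ S) (by omega)).2.2 (!t) (by omega) ?_
        rw [Bool.not_not]; exact hnBS
      rw [e1] at hdx hjx ⊢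
      exact NN.d0b hs nA nB hdA hjA hdx hjx

/-- `NN` for a `t`-join -/
theorem NN.caseT (hs : ∀ u v, b u v = b v u) (H : HJ b) {G : Finset V} (hG : IsJ b t G)
    (hG3 : 3 ≤ G.card) (ih : ∀ G' : Finset V, G'.card < G.card → All b G') : NN b t G := by
  obtain ⟨S, T, hd, rfl, hS, hj, hT⟩ := dec hs H t G
  have hc : (T ∪ S).card = T.card + S.card := Finset.card_union_of_disjoint hd
  rcases hT with rfl | ⟨hT2, hTJ⟩ | ⟨A, B, hAB, hABu, hjAB, hA, hB⟩
  · rw [Finset.empty_union] at *
    exact NN.clique hS hG3
  · have hS0 : S.Nonempty := by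
      rw [Finset.nonempty_iff_ne_empty]
      rintro rfl
      rw [Finset.union_empty] at hG
      exact hG.not_both hs hTJ
    have hSc : 1 ≤ S.card := hS0.card_pos
    have pT : P0 b t T := ((ih T (by omega)).1 hT2).flip t
    by_cases h1 : S.card = 1
    · obtain ⟨y, rfl⟩ := Finset.card_eq_one.mp h1
      exact NN.add_one hs pT hT2 hd hj
    · have pS : P1 b t S := by
        by_cases h2 : S.card = 2
        · exact P1.of_card_two hs h2
        · exact (NN.clique hS (by omega)).p1
      exact NN.joinT hs (Finset.card_pos.mp (by omega)) hS0 pT pS hd hj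
  · subst hABu
    have hA2 := two_le_of_not_clq hA
    have hB2 := two_le_of_not_clq hB
    have hcAB : (A ∪ B).card = A.card + B.card := Finset.card_union_of_disjoint hAB
    have hdBS : Disjoint B S := hd.mono_left Finset.subset_union_right
    have hdAS : Disjoint A S := hd.mono_left Finset.subset_union_left
    have hcBS : (B ∪ S).card = B.card + S.card := Finset.card_union_of_disjoint hdBS
    have hcAS : (A ∪ S).card = A.card + S.card := Finset.card_union_of_disjoint hdAS
    have hjAS : Jn b t A S := hj.sub Finset.subset_union_left (Finset.Subset.refl _)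
    have hjBS : Jn b t B S := hj.sub Finset.subset_union_right (Finset.Subset.refl _)
    have hjA : Jn b t A (B ∪ S) := hjAB.union hjAS
    have hjB : Jn b t B (A ∪ S) := (hjAB.symm hs).union hjBS
    have hdA : Disjoint A (B ∪ S) := Finset.disjoint_union_right.mpr ⟨hAB, hdAS⟩
    have hdB : Disjoint B (A ∪ S) := Finset.disjoint_union_right.mpr ⟨hAB.symm, hdBS⟩
    have e1 : A ∪ B ∪ S = A ∪ (B ∪ S) := Finset.union_assoc _ _ _
    have e2 : A ∪ B ∪ S = B ∪ (A ∪ S) := by
      rw [Finset.union_comm A B, Finset.union_assoc]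
    have nA : A.Nonempty := Finset.card_pos.mp (by omega)
    have nB : B.Nonempty := Finset.card_pos.mp (by omega)
    have nBS : (B ∪ S).Nonempty := Finset.card_pos.mp (by omega)
    have nAS : (A ∪ S).Nonempty := Finset.card_pos.mp (by omega)
    by_cases hq : Clq b (!t) (B ∪ S) ∧ Odd (B ∪ S).card
    · have hS0 : S = ∅ := by
        rw [Finset.eq_empty_iff_forall_notMem]
        intro y hy
        obtain ⟨z, hz⟩ := nB
        have h1 := hjBS z hz y hy
        have h2 := hq.1 z (Finset.mem_union_left _ hz) y (Finset.mem_union_right _ hy) (fun h =>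
          Finset.disjoint_left.mp hdBS hz (h ▸ hy))
        rw [h1] at h2
        cases t <;> simp at h2
      subst hS0
      rw [Finset.union_empty] at hq
      by_cases hq' : Clq b (!t) A ∧ Odd A.card
      · have h3 : ∀ n : ℕ, 2 ≤ n → Odd n → 3 ≤ n := by
          rintro n h ⟨k, rfl⟩; omega
        rw [Finset.union_empty]
        exact NN.two_cliques hs hq'.1 hq.1 (h3 _ hA2 hq'.2) (h3 _ hB2 hq.2) hq'.2 hq.2 hAB hjAB
      · rw [Finset.union_empty] at e2 ⊢
        rw [Finset.union_comm]
        exact NN.joinT hs nB nA (((ih B (by rw [Finset.card_empty] at hc; omega)).1 hB2).flip t)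
          ((ih A (by rw [Finset.card_empty] at hc; omega)).2.1 t hA2 hq') hAB.symm (hjAB.symm hs)
    · rw [e1]
      exact NN.joinT hs nA nBS (((ih A (by omega)).1 hA2).flip t)
        ((ih (B ∪ S) (by omega)).2.1 t (by omega) hq) hdA hjA

/-- `NN` for a `!t`-join -/
theorem NN.caseS (hs : ∀ u v, b u v = b v u) (H : HJ b) {G : Finset V} (hG : IsJ b (!t) G)
    (hGq : ¬ Clq b (!t) G)
    (hG3 : 3 ≤ G.card) (ih : ∀ G' : Finset V, G'.card < G.card → All b G') : NN b t G := by
  obtain ⟨S, T, hd, rfl, hS, hj, hT⟩ := dec hs H (!t) G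
  have hc : (T ∪ S).card = T.card + S.card := Finset.card_union_of_disjoint hd
  rcases hT with rfl | ⟨hT2, hTJ⟩ | ⟨A, B, hAB, hABu, hjAB, hA, hB⟩
  · rw [Finset.empty_union] at *
    exact absurd hS hGq
  · have hS0 : S.Nonempty := by
      rw [Finset.nonempty_iff_ne_empty]
      rintro rfl
      rw [Finset.union_empty] at hG
      exact hG.not_both hs hTJ
    have hSc : 1 ≤ S.card := hS0.card_pos
    rw [Bool.not_not] at hTJ
    have hTq : ¬ Clq b (!t) T := hTJ.not_clq
    by_cases h1 : S.card = 1
    · obtain ⟨x, rfl⟩ := Finset.card_eq_one.mp h1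
      exact NN.d0 hs H hTJ hT2 hd hj (fun G' hG' => ih G' (by omega))
    rcases Nat.even_or_odd S.card with he | ho
    · have pS : P1 b t S := P1.clique hS (by omega) he
      by_cases hT2' : T.card = 2
      · have hTc : Clq b t T := (Clq.of_card_two hs hT2' t).resolve_right hTq
        exact NN.edge_clique hs hTc hS hT2' (by omega) he hd hj
      · exact NN.joinS hs ((ih T (by omega)).2.2 t (by omega) hTq) pS hd hj
    · obtain ⟨x, hx⟩ := hS0
      have hS3 : 3 ≤ S.card := by
        obtain ⟨k, hk⟩ := ho; omega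
      have hce : (S.erase x).card = S.card - 1 := Finset.card_erase_of_mem hx
      have hTx : Disjoint T {x} := by
        rw [Finset.disjoint_singleton_right]
        exact fun h => Finset.disjoint_left.mp hd h hx
      have hcTx : (T ∪ {x}).card = T.card + 1 := by
        rw [Finset.card_union_of_disjoint hTx, Finset.card_singleton]
      have hTxq : ¬ Clq b (!t) (T ∪ {x}) := fun h => hTq (h.sub Finset.subset_union_left)
      have e : T ∪ S = (T ∪ {x}) ∪ S.erase x := by
        rw [Finset.union_assoc]
        congr 1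
        ext y
        rw [Finset.mem_union, Finset.mem_singleton, Finset.mem_erase]
        constructor
        · intro hy
          by_cases hyx : y = x
          · exact Or.inl hyx
          · exact Or.inr ⟨hyx, hy⟩
        · rintro (rfl | ⟨-, hy⟩)
          · exact hx
          · exact hy
      have hd' : Disjoint (T ∪ {x}) (S.erase x) := by
        rw [Finset.disjoint_union_left]
        refine ⟨hd.mono_right (Finset.erase_subset _ _), ?_⟩
        rw [Finset.disjoint_singleton_left]
        exact Finset.notMem_erase x S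
      have hj' : Jn b (!t) (T ∪ {x}) (S.erase x) := by
        intro u hu v hv
        rcases Finset.mem_union.mp hu with h | h
        · exact hj u h v (Finset.mem_of_mem_erase hv)
        · rw [Finset.mem_singleton] at h
          subst h
          exact hS u hx v (Finset.mem_of_mem_erase hv) (Finset.ne_of_mem_erase hv).symm
      rw [e]
      refine NN.joinS hs ((ih (T ∪ {x}) (by omega)).2.2 t (by omega) hTxq) ?_ hd' hj'
      refine P1.clique (hS.sub (Finset.erase_subset _ _)) (by omega) ?_
      obtain ⟨k, hk⟩ := ho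
      exact ⟨k, by omega⟩
  · subst hABu
    have hA2 := two_le_of_not_clq hA
    have hB2 := two_le_of_not_clq hB
    have hcAB : (A ∪ B).card = A.card + B.card := Finset.card_union_of_disjoint hAB
    have hdBS : Disjoint B S := hd.mono_left Finset.subset_union_right
    have hdAS : Disjoint A S := hd.mono_left Finset.subset_union_left
    have hcBS : (B ∪ S).card = B.card + S.card := Finset.card_union_of_disjoint hdBS
    have hnBS : ¬ Clq b (!t) (B ∪ S) := fun h => hB (h.sub Finset.subset_union_left)
    have hjAS : Jn b (!t) A S := hj.sub Finset.subset_union_left (Finset.Subset.refl _)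
    have hjBS : Jn b (!t) B S := hj.sub Finset.subset_union_right (Finset.Subset.refl _)
    have hjA : Jn b (!t) A (B ∪ S) := hjAB.union hjAS
    have hdA : Disjoint A (B ∪ S) := Finset.disjoint_union_right.mpr ⟨hAB, hdAS⟩
    have e1 : A ∪ B ∪ S = A ∪ (B ∪ S) := Finset.union_assoc _ _ _
    have pA : P1 b t A := (ih A (by omega)).2.1 t hA2 (fun h => hA h.1)
    have pBS : P1 b t (B ∪ S) := (ih (B ∪ S) (by omega)).2.1 t (by omega) (fun h => hnBS h.1)
    rw [e1]
    by_cases hA3 : 3 ≤ A.card
    · exact NN.joinS hs ((ih A (by omega)).2.2 t hA3 hA) pBS hdA hjA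
    by_cases hB3 : 3 ≤ (B ∪ S).card
    · rw [Finset.union_comm]
      exact NN.joinS hs ((ih (B ∪ S) (by omega)).2.2 t hB3 hnBS) pA hdA.symm (hjA.symm hs)
    · have hA' : A.card = 2 := by omega
      have hB' : (B ∪ S).card = 2 := by omega
      exact NN.two_edges hs ((Clq.of_card_two hs hA' t).resolve_right hA)
        ((Clq.of_card_two hs hB' t).resolve_right hnBS) hA' hB' hdA hjA

theorem all (hs : ∀ u v, b u v = b v u) (H : HJ b) : ∀ (n : ℕ) (G : Finset V), G.card < n →
    All b G := by
  intro n
  induction n with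
  | zero => intro G h; omega
  | succ n ihn =>
    intro G hG
    have ih : ∀ G' : Finset V, G'.card < G.card → All b G' := fun G' h => ihn G' (by omega)
    have hN : ∀ t, 3 ≤ G.card → ¬ Clq b (!t) G → NN b t G := by
      intro t h3 hq
      obtain ⟨s, hJ⟩ := H G (by omega)
      by_cases hst : s = t
      · subst hst; exact NN.caseT hs H hJ h3 ih
      · have : s = !t := by cases s <;> cases t <;> simp_all
        subst this
        exact NN.caseS hs H hJ hq h3 ih
    refine ⟨?_, ?_, hN⟩
    · intro h2
      by_cases h2' : G.card = 2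
      · exact P0.of_card_two hs h2'
      obtain ⟨s, A, B, hA, hB, hd, rfl, hj⟩ := H G h2
      have hc : (A ∪ B).card = A.card + B.card := Finset.card_union_of_disjoint hd
      have cA := hA.card_pos
      have cB := hB.card_pos
      -- one single vertex
      have key : ∀ (A' : Finset V) (y : V), Disjoint A' {y} → A' ∪ {y} = A ∪ B → Jn b s A' {y} →
          P0 b s (A ∪ B) := by
        intro A' y hd' hu hj'
        have hcA : A'.card + 1 = (A ∪ B).card := by
          rw [← hu, Finset.card_union_of_disjoint hd', Finset.card_singleton]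
        rw [← hu]
        by_cases hq : Clq b (!s) A' ∧ Odd A'.card
        · exact P0.add_one_clique hs hq.1 hq.2 hd' hj'
        · exact P0.add_one hs ((ih A' (by omega)).2.1 s (by omega) hq) hd' hj'
      by_cases hB1 : B.card = 1
      · obtain ⟨y, rfl⟩ := Finset.card_eq_one.mp hB1
        exact (key A y hd rfl hj).flip true
      by_cases hA1 : A.card = 1
      · obtain ⟨y, rfl⟩ := Finset.card_eq_one.mp hA1
        exact (key B y hd.symm (Finset.union_comm _ _) (hj.symm hs)).flip true
      · exact (P0.join hs (((ih A (by omega)).1 (by omega)).flip s)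
          (((ih B (by omega)).1 (by omega)).flip s) hd hj).flip true
    · intro t h2 hq
      by_cases h2' : G.card = 2
      · exact P1.of_card_two hs h2'
      by_cases hc : Clq b (!t) G
      · have he : Even G.card := by
          rcases Nat.even_or_odd G.card with h | h
          · exact h
          · exact absurd ⟨hc, h⟩ hq
        exact P1.clique hc h2 he
      · exact (hN t (by omega) hc).p1

/-- a majority partition with parts of at most half the size, for both colours -/
theorem exists_P0 (hs : ∀ u v, b u v = b v u) (H : HJ b) (G : Finset V) (hG : 2 ≤ G.card) :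
    P0 b true G := (all hs H (G.card + 1) G (by omega)).1 hG

end Pool.Agent.Lib.MP_e6d6ae_co
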