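import Mathlib

/-!
# Profiles of partitions of edge-coloured sets

`b : V → V → Bool` is a (symmetric) colouring of the pairs of `V`. For a set `G`, a map
`f : V → Fin 3` and a colour `a`, the excess `ex b G f a v` of a vertex `v` is the number of edges
of colour `a` from `v` to the other parts minus the number of those within its part. A profile of `G`
records the sizes of the parts and lower bounds of the excesses in each part.
-/

set_option autoImplicit false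
set_option linter.unusedSectionVars false

open Finset

namespace Pool.Agent.Lib.MP_e6d6ae_co

variable {V : Type*} [DecidableEq V]

/-- edges of colour `a` from `v` that leave its part minus those that stay in it -/
def ex (b : V → V → Bool) (G : Finset V) (f : V → Fin 3) (a : Bool) (v : V) : ℤ :=
  ∑ w ∈ G, if w = v then 0 else if b v w = a then (if f w = f v then -1 else 1) else 0

/-- the size of the part `i` in `G` -/
def cnt (G : Finset V) (f : V → Fin 3) (i : Fin 3) : ℤ := ((G.filter fun v => f v = i).card : ℤ)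

/-- the profile: sizes `n`, lower bounds `p` for the excess in the colour `t` and `r` in the other
colour -/
def Prof (b : V → V → Bool) (t : Bool) (G : Finset V) (n0 n1 n2 p0 p1 p2 r0 r1 r2 : ℤ) : Prop :=
  ∃ f : V → Fin 3, (cnt G f 0 = n0 ∧ cnt G f 1 = n1 ∧ cnt G f 2 = n2) ∧
    ∀ v ∈ G, (f v = 0 → p0 ≤ ex b G f t v ∧ r0 ≤ ex b G f (!t) v) ∧
      (f v = 1 → p1 ≤ ex b G f t v ∧ r1 ≤ ex b G f (!t) v) ∧
      (f v = 2 → p2 ≤ ex b G f t v ∧ r2 ≤ ex b G f (!t) v)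

variable {b : V → V → Bool} {t : Bool}

theorem cnt_congr {G : Finset V} {f g : V → Fin 3} (h : ∀ v ∈ G, f v = g v) (i : Fin 3) :
    cnt G f i = cnt G g i := by
  unfold cnt
  congr 2
  apply Finset.filter_congr
  intro v hv
  rw [h v hv]

theorem cnt_union {A B : Finset V} (hd : Disjoint A B) (f : V → Fin 3) (i : Fin 3) :
    cnt (A ∪ B) f i = cnt A f i + cnt B f i := by
  unfold cnt
  rw [Finset.filter_union, Finset.card_union_of_disjoint]
  · push_cast; rfl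
  · exact Finset.disjoint_filter_filter hd

theorem cnt_sum (G : Finset V) (f : V → Fin 3) :
    cnt G f 0 + cnt G f 1 + cnt G f 2 = (G.card : ℤ) := by
  have h := Finset.card_eq_sum_card_fiberwise (f := f) (s := G) (t := Finset.univ)
    (fun v _ => by simp)
  unfold cnt
  rw [h, Fin.sum_univ_three]
  push_cast
  ring

theorem cnt_nonneg (G : Finset V) (f : V → Fin 3) (i : Fin 3) : 0 ≤ cnt G f i := by
  unfold cnt; positivity

theorem cnt_pos {G : Finset V} {f : V → Fin 3} {v : V} (hv : v ∈ G) : 1 ≤ cnt G f (f v) := by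
  unfold cnt
  have : 0 < (G.filter fun w => f w = f v).card := Finset.card_pos.mpr ⟨v, by simp [hv]⟩
  exact_mod_cast this

theorem ex_congr {G : Finset V} {f g : V → Fin 3} (h : ∀ v ∈ G, f v = g v) (a : Bool) {v : V}
    (hv : v ∈ G) : ex b G f a v = ex b G g a v := by
  unfold ex
  apply Finset.sum_congr rfl
  intro w hw
  rw [h v hv, h w hw]

theorem sum_sign (B : Finset V) (f : V → Fin 3) (i : Fin 3) :
    (∑ w ∈ B, if f w = i then (-1 : ℤ) else 1) = (B.card : ℤ) - 2 * cnt B f i := by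
  unfold cnt
  rw [Finset.card_filter]
  push_cast
  rw [Finset.mul_sum, Finset.card_eq_sum_ones]
  push_cast
  rw [← Finset.sum_sub_distrib]
  apply Finset.sum_congr rfl
  intro w _
  split_ifs <;> norm_num

theorem ex_union_same {A B : Finset V} (hd : Disjoint A B) {f : V → Fin 3} {v : V} (hv : v ∈ A)
    (hj : ∀ w ∈ B, b v w = t) :
    ex b (A ∪ B) f t v = ex b A f t v + ((B.card : ℤ) - 2 * cnt B f (f v)) := by
  unfold ex
  rw [Finset.sum_union hd, ← sum_sign]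
  congr 1
  apply Finset.sum_congr rfl
  intro w hw
  have h : w ≠ v := fun h => Finset.disjoint_left.mp hd hv (h ▸ hw)
  rw [if_neg h, if_pos (hj w hw)]

theorem ex_union_other {A B : Finset V} (hd : Disjoint A B) {f : V → Fin 3} {v : V} (hv : v ∈ A)
    (hj : ∀ w ∈ B, b v w = t) :
    ex b (A ∪ B) f (!t) v = ex b A f (!t) v := by
  unfold ex
  rw [Finset.sum_union hd]
  conv_rhs => rw [← add_zero (∑ w ∈ A, _)]
  congr 1
  apply Finset.sum_eq_zero
  intro w hw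
  have h : w ≠ v := fun h => Finset.disjoint_left.mp hd hv (h ▸ hw)
  rw [if_neg h, if_neg]
  rw [hj w hw]
  cases t <;> decide

theorem Prof.card {G : Finset V} {n0 n1 n2 p0 p1 p2 r0 r1 r2 : ℤ}
    (h : Prof b t G n0 n1 n2 p0 p1 p2 r0 r1 r2) :
    n0 + n1 + n2 = (G.card : ℤ) ∧ 0 ≤ n0 ∧ 0 ≤ n1 ∧ 0 ≤ n2 := by
  obtain ⟨f, ⟨h0, h1, h2⟩, -⟩ := h
  subst h0 h1 h2
  exact ⟨cnt_sum G f, cnt_nonneg _ _ _, cnt_nonneg _ _ _, cnt_nonneg _ _ _⟩

/-- joining two sets by the colour `t` -/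
theorem Prof.joinT (hs : ∀ u v, b u v = b v u) {A B : Finset V}
    {n0 n1 n2 p0 p1 p2 r0 r1 r2 n0' n1' n2' p0' p1' p2' r0' r1' r2' : ℤ}
    (hA : Prof b t A n0 n1 n2 p0 p1 p2 r0 r1 r2)
    (hB : Prof b t B n0' n1' n2' p0' p1' p2' r0' r1' r2')
    (hd : Disjoint A B) (hj : ∀ u ∈ A, ∀ v ∈ B, b u v = t)
    {N0 N1 N2 P0 P1 P2 R0 R1 R2 : ℤ}
    (h : (N0 = n0 + n0' ∧ N1 = n1 + n1' ∧ N2 = n2 + n2') ∧
      (1 ≤ n0 → P0 ≤ p0 + (n1' + n2' - n0') ∧ R0 ≤ r0) ∧
      (1 ≤ n1 → P1 ≤ p1 + (n0' + n2' - n1') ∧ R1 ≤ r1) ∧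
      (1 ≤ n2 → P2 ≤ p2 + (n0' + n1' - n2') ∧ R2 ≤ r2) ∧
      (1 ≤ n0' → P0 ≤ p0' + (n1 + n2 - n0) ∧ R0 ≤ r0') ∧
      (1 ≤ n1' → P1 ≤ p1' + (n0 + n2 - n1) ∧ R1 ≤ r1') ∧
      (1 ≤ n2' → P2 ≤ p2' + (n0 + n1 - n2) ∧ R2 ≤ r2')) :
    Prof b t (A ∪ B) N0 N1 N2 P0 P1 P2 R0 R1 R2 := by
  have cA := hA.card.1
  have cB := hB.card.1
  obtain ⟨⟨s0, s1, s2⟩, x0, x1, x2, y0, y1, y2⟩ := h
  obtain ⟨f, ⟨f0, f1, f2⟩, hf⟩ := hA
  obtain ⟨g, ⟨g0, g1, g2⟩, hg⟩ := hB
  set k : V → Fin 3 := fun v => if v ∈ A then f v else g v with hk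
  have kA : ∀ v ∈ A, k v = f v := fun v hv => by simp only [hk]; rw [if_pos hv]
  have kB : ∀ v ∈ B, k v = g v := fun v hv => by
    simp only [hk]; rw [if_neg (Finset.disjoint_right.mp hd hv)]
  have cA' : ∀ i, cnt A k i = cnt A f i := cnt_congr kA
  have cB' : ∀ i, cnt B k i = cnt B g i := cnt_congr kB
  refine ⟨k, ⟨?_, ?_, ?_⟩, ?_⟩
  · rw [cnt_union hd, cA', cB', f0, g0, s0]
  · rw [cnt_union hd, cA', cB', f1, g1, s1]
  · rw [cnt_union hd, cA', cB', f2, g2, s2]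
  · intro v hv
    rcases Finset.mem_union.mp hv with hv | hv
    · have e1 := ex_union_same (f := k) hd hv (hj v hv)
      have e2 := ex_union_other (f := k) hd hv (hj v hv)
      rw [ex_congr kA t hv] at e1
      rw [ex_congr kA (!t) hv] at e2
      rw [kA v hv, cB'] at e1
      have hp := cnt_pos (f := f) hv
      have hv' := hf v hv
      rw [kA v hv, e1, e2]
      refine ⟨fun hi => ?_, fun hi => ?_, fun hi => ?_⟩
      · rw [hi] at hp ⊢
        have h1 := hv'.1 hi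
        rw [f0] at hp
        rw [g0]
        have h2 := x0 hp
        exact ⟨by linarith [h1.1, h2.1], by linarith [h1.2, h2.2]⟩
      · rw [hi] at hp ⊢
        have h1 := hv'.2.1 hi
        rw [f1] at hp
        rw [g1]
        have h2 := x1 hp
        exact ⟨by linarith [h1.1, h2.1], by linarith [h1.2, h2.2]⟩
      · rw [hi] at hp ⊢
        have h1 := hv'.2.2 hi
        rw [f2] at hp
        rw [g2]
        have h2 := x2 hp
        exact ⟨by linarith [h1.1, h2.1], by linarith [h1.2, h2.2]⟩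
    · have hd' := hd.symm
      have hj' : ∀ w ∈ A, b v w = t := fun w hw => by rw [hs]; exact hj w hw v hv
      have e1 := ex_union_same (f := k) hd' hv hj'
      have e2 := ex_union_other (f := k) hd' hv hj'
      rw [ex_congr kB t hv] at e1
      rw [ex_congr kB (!t) hv] at e2
      rw [kB v hv, cA'] at e1
      have hp := cnt_pos (f := g) hv
      have hv' := hg v hv
      rw [kB v hv, Finset.union_comm, e1, e2]
      refine ⟨fun hi => ?_, fun hi => ?_, fun hi => ?_⟩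
      · rw [hi] at hp ⊢
        have h1 := hv'.1 hi
        rw [g0] at hp
        rw [f0]
        have h2 := y0 hp
        exact ⟨by linarith [h1.1, h2.1], by linarith [h1.2, h2.2]⟩
      · rw [hi] at hp ⊢
        have h1 := hv'.2.1 hi
        rw [g1] at hp
        rw [f1]
        have h2 := y1 hp
        exact ⟨by linarith [h1.1, h2.1], by linarith [h1.2, h2.2]⟩
      · rw [hi] at hp ⊢
        have h1 := hv'.2.2 hi
        rw [g2] at hp
        rw [f2]
        have h2 := y2 hp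
        exact ⟨by linarith [h1.1, h2.1], by linarith [h1.2, h2.2]⟩

theorem Prof.swap {G : Finset V} {n0 n1 n2 p0 p1 p2 r0 r1 r2 : ℤ}
    (h : Prof b t G n0 n1 n2 p0 p1 p2 r0 r1 r2) :
    Prof b (!t) G n0 n1 n2 r0 r1 r2 p0 p1 p2 := by
  obtain ⟨f, hn, hf⟩ := h
  refine ⟨f, hn, fun v hv => ?_⟩
  have := hf v hv
  rw [Bool.not_not]
  tauto

theorem Prof.swap' {G : Finset V} {n0 n1 n2 p0 p1 p2 r0 r1 r2 : ℤ}
    (h : Prof b (!t) G n0 n1 n2 p0 p1 p2 r0 r1 r2) :
    Prof b t G n0 n1 n2 r0 r1 r2 p0 p1 p2 := by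
  have := h.swap
  rwa [Bool.not_not] at this

/-- joining two sets by the colour `!t` -/
theorem Prof.joinS (hs : ∀ u v, b u v = b v u) {A B : Finset V}
    {n0 n1 n2 p0 p1 p2 r0 r1 r2 n0' n1' n2' p0' p1' p2' r0' r1' r2' : ℤ}
    (hA : Prof b t A n0 n1 n2 p0 p1 p2 r0 r1 r2)
    (hB : Prof b t B n0' n1' n2' p0' p1' p2' r0' r1' r2')
    (hd : Disjoint A B) (hj : ∀ u ∈ A, ∀ v ∈ B, b u v = !t)
    {N0 N1 N2 P0 P1 P2 R0 R1 R2 : ℤ}
    (h : (N0 = n0 + n0' ∧ N1 = n1 + n1' ∧ N2 = n2 + n2') ∧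
      (1 ≤ n0 → P0 ≤ p0 ∧ R0 ≤ r0 + (n1' + n2' - n0')) ∧
      (1 ≤ n1 → P1 ≤ p1 ∧ R1 ≤ r1 + (n0' + n2' - n1')) ∧
      (1 ≤ n2 → P2 ≤ p2 ∧ R2 ≤ r2 + (n0' + n1' - n2')) ∧
      (1 ≤ n0' → P0 ≤ p0' ∧ R0 ≤ r0' + (n1 + n2 - n0)) ∧
      (1 ≤ n1' → P1 ≤ p1' ∧ R1 ≤ r1' + (n0 + n2 - n1)) ∧
      (1 ≤ n2' → P2 ≤ p2' ∧ R2 ≤ r2' + (n0 + n1 - n2))) :
    Prof b t (A ∪ B) N0 N1 N2 P0 P1 P2 R0 R1 R2 := by
  apply Prof.swap'
  refine Prof.joinT hs hA.swap hB.swap hd hj ?_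
  tauto

/-- permuting the parts -/
theorem Prof.perm {G : Finset V} {n0 n1 n2 p0 p1 p2 r0 r1 r2 : ℤ} (σ : Equiv.Perm (Fin 3))
    (h : Prof b t G n0 n1 n2 p0 p1 p2 r0 r1 r2) :
    Prof b t G (![n0, n1, n2] (σ 0)) (![n0, n1, n2] (σ 1)) (![n0, n1, n2] (σ 2))
      (![p0, p1, p2] (σ 0)) (![p0, p1, p2] (σ 1)) (![p0, p1, p2] (σ 2))
      (![r0, r1, r2] (σ 0)) (![r0, r1, r2] (σ 1)) (![r0, r1, r2] (σ 2)) := by
  obtain ⟨f, ⟨h0, h1, h2⟩, hf⟩ := h
  have hc : ∀ i, cnt G (fun v => σ.symm (f v)) i = ![n0, n1, n2] (σ i) := by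
    intro i
    have : cnt G (fun v => σ.symm (f v)) i = cnt G f (σ i) := by
      unfold cnt
      congr 2
      apply Finset.filter_congr
      intro v _
      rw [Equiv.symm_apply_eq]
    rw [this]
    generalize σ i = j
    fin_cases j
    · exact h0
    · exact h1
    · exact h2
  have he : ∀ a v, ex b G (fun v => σ.symm (f v)) a v = ex b G f a v := by
    intro a v
    unfold ex
    simp only [EmbeddingLike.apply_eq_iff_eq]
  refine ⟨fun v => σ.symm (f v), ⟨hc 0, hc 1, hc 2⟩, fun v hv => ?_⟩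
  have key : ∀ i, σ.symm (f v) = i → ![p0, p1, p2] (σ i) ≤ ex b G f t v ∧
      ![r0, r1, r2] (σ i) ≤ ex b G f (!t) v := by
    intro i hi
    rw [Equiv.symm_apply_eq] at hi
    have hv' := hf v hv
    rw [← hi]
    generalize f v = j at hv'
    fin_cases j
    · exact hv'.1 rfl
    · exact hv'.2.1 rfl
    · exact hv'.2.2 rfl
  rw [he, he]
  exact ⟨key 0, key 1, key 2⟩

theorem Prof.swap01 {G : Finset V} {n0 n1 n2 p0 p1 p2 r0 r1 r2 : ℤ}
    (h : Prof b t G n0 n1 n2 p0 p1 p2 r0 r1 r2) :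
    Prof b t G n1 n0 n2 p1 p0 p2 r1 r0 r2 := h.perm (Equiv.swap 0 1)

theorem Prof.swap12 {G : Finset V} {n0 n1 n2 p0 p1 p2 r0 r1 r2 : ℤ}
    (h : Prof b t G n0 n1 n2 p0 p1 p2 r0 r1 r2) :
    Prof b t G n0 n2 n1 p0 p2 p1 r0 r2 r1 := h.perm (Equiv.swap 1 2)

theorem Prof.mono {G : Finset V} {n0 n1 n2 p0 p1 p2 r0 r1 r2 P0 P1 P2 R0 R1 R2 : ℤ}
    (h : Prof b t G n0 n1 n2 p0 p1 p2 r0 r1 r2)
    (h' : (1 ≤ n0 → P0 ≤ p0 ∧ R0 ≤ r0) ∧ (1 ≤ n1 → P1 ≤ p1 ∧ R1 ≤ r1) ∧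
      (1 ≤ n2 → P2 ≤ p2 ∧ R2 ≤ r2)) :
    Prof b t G n0 n1 n2 P0 P1 P2 R0 R1 R2 := by
  obtain ⟨f, ⟨h0, h1, h2⟩, hf⟩ := h
  refine ⟨f, ⟨h0, h1, h2⟩, fun v hv => ?_⟩
  have hv' := hf v hv
  have hp := cnt_pos (f := f) hv
  refine ⟨fun hi => ?_, fun hi => ?_, fun hi => ?_⟩
  · have := hv'.1 hi
    rw [hi] at hp; omega
  · have := hv'.2.1 hi
    rw [hi] at hp; omega
  · have := hv'.2.2 hi
    rw [hi] at hp; omega

/-- a single vertex -/
theorem Prof.single (v : V) (p1 p2 r1 r2 : ℤ) : Prof b t {v} 1 0 0 0 p1 p2 0 r1 r2 := by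
  refine ⟨fun _ => 0, ⟨?_, ?_, ?_⟩, ?_⟩
  · simp [cnt]
  · simp [cnt]
  · simp [cnt]
  · intro w hw
    rw [Finset.mem_singleton] at hw
    subst hw
    simp [ex]

/-- a set all of whose edges have the colour `t`, with parts of given sizes -/
theorem Prof.clique (K : Finset V) (hK : ∀ u ∈ K, ∀ v ∈ K, u ≠ v → b u v = t) {k0 k1 k2 : ℤ}
    (h0 : 0 ≤ k0) (h1 : 0 ≤ k1) (h2 : 0 ≤ k2) (h : (K.card : ℤ) = k0 + k1 + k2) :
    Prof b t K k0 k1 k2 (k1 + k2 - k0 + 1) (k0 + k2 - k1 + 1) (k0 + k1 - k2 + 1) 0 0 0 := by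
  obtain ⟨a0, rfl⟩ := Int.eq_ofNat_of_zero_le h0
  obtain ⟨a1, rfl⟩ := Int.eq_ofNat_of_zero_le h1
  obtain ⟨a2, rfl⟩ := Int.eq_ofNat_of_zero_le h2
  have hc : K.card = a0 + a1 + a2 := by exact_mod_cast h
  obtain ⟨A, hAK, hA⟩ := Finset.exists_subset_card_eq (show a0 ≤ K.card by omega)
  have hc' : (K \ A).card = a1 + a2 := by
    rw [Finset.card_sdiff_of_subset hAK, hA]; omega
  obtain ⟨B, hBK, hB⟩ := Finset.exists_subset_card_eq (show a1 ≤ (K \ A).card by omega)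
  have hBK' : ∀ v ∈ B, v ∈ K ∧ v ∉ A := fun v hv => Finset.mem_sdiff.mp (hBK hv)
  set f : V → Fin 3 := fun v => if v ∈ A then 0 else if v ∈ B then 1 else 2 with hf
  have c0 : cnt K f 0 = a0 := by
    unfold cnt
    have : (K.filter fun v => f v = 0) = A := by
      ext v
      simp only [Finset.mem_filter, hf]
      constructor
      · rintro ⟨-, h⟩
        split_ifs at h with h1 h2
        · exact h1
        · exact absurd h (by decide)
        · exact absurd h (by decide)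
      · intro h
        exact ⟨hAK h, by rw [if_pos h]⟩
    rw [this, hA]
  have c1 : cnt K f 1 = a1 := by
    unfold cnt
    have : (K.filter fun v => f v = 1) = B := by
      ext v
      simp only [Finset.mem_filter, hf]
      constructor
      · rintro ⟨-, h⟩
        split_ifs at h with h1 h2
        · exact absurd h (by decide)
        · exact h2
        · exact absurd h (by decide)
      · intro h
        exact ⟨(hBK' v h).1, by rw [if_neg (hBK' v h).2, if_pos h]⟩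
    rw [this, hB]
  have cs := cnt_sum K f
  have c2 : cnt K f 2 = a2 := by omega
  refine ⟨f, ⟨c0, c1, c2⟩, fun v hv => ?_⟩
  have e1 : ex b K f t v = (K.card : ℤ) - 2 * cnt K f (f v) + 1 := by
    rw [← sum_sign]
    unfold ex
    rw [← Finset.add_sum_erase K _ hv, ← Finset.add_sum_erase K (fun w => if f w = f v then (-1 : ℤ) else 1) hv]
    rw [if_pos rfl, if_pos rfl]
    have : (∑ w ∈ K.erase v, if w = v then (0 : ℤ) else if b v w = t then
        (if f w = f v then -1 else 1) else 0) = ∑ w ∈ K.erase v, if f w = f v then (-1 : ℤ) else 1 := by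
      apply Finset.sum_congr rfl
      intro w hw
      have hw' := Finset.mem_erase.mp hw
      rw [if_neg hw'.1, if_pos (hK v hv w hw'.2 hw'.1.symm)]
    rw [this]
    ring
  have e2 : ex b K f (!t) v = 0 := by
    unfold ex
    apply Finset.sum_eq_zero
    intro w hw
    by_cases hwv : w = v
    · rw [if_pos hwv]
    · rw [if_neg hwv, if_neg]
      rw [hK v hv w hw (Ne.symm hwv)]
      cases t <;> decide
  rw [e1, e2]
  refine ⟨fun hi => ?_, fun hi => ?_, fun hi => ?_⟩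
  · rw [hi, c0]; omega
  · rw [hi, c1]; omega
  · rw [hi, c2]; omega

end Pool.Agent.Lib.MP_e6d6ae_co
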