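import Pool.Agent.Lib.MP_e6d6ae_co.Main

/-!
# Colourings without a path on four vertices

If there is no path on four vertices in both colours then every set of at least two vertices is a join
(Seinsche's theorem).
-/

set_option autoImplicit false
set_option linter.unusedSectionVars false

open Finset

namespace Pool.Agent.Lib.MP_e6d6ae_co

variable {V : Type*} [DecidableEq V] {b : V → V → Bool} {t : Bool}

theorem seinsche (hs : ∀ u v, b u v = b v u)
    (hP : ∀ (s : Bool) (w x y z : V), w ≠ x → w ≠ y → w ≠ z → x ≠ y → x ≠ z → y ≠ z →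
      b w x = s → b x y = s → b y z = s → b w y = !s → b w z = !s → b x z = !s → False) : HJ b := by
  suffices h : ∀ (n : ℕ) (G : Finset V), G.card = n → 2 ≤ n → ∃ s, IsJ b s G from
    fun G hG => h G.card G rfl hG
  intro n
  induction n using Nat.strong_induction_on with
  | _ n ih =>
    intro G hGn hn
    rcases Nat.lt_or_ge 2 n with h3 | h2
    swap
    · obtain ⟨u, v, huv, rfl⟩ := Finset.card_eq_two.mp (show G.card = 2 by omega)
      refine ⟨b u v, {u}, {v}, by simp, by simp, by simpa using huv, rfl, ?_⟩
      intro x hx y hy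
      rw [Finset.mem_singleton] at hx hy
      subst hx hy; rfl
    obtain ⟨v, hv⟩ : G.Nonempty := Finset.card_pos.mp (by omega)
    set G' := G.erase v with hG'
    have hcG' : G'.card = G.card - 1 := Finset.card_erase_of_mem hv
    obtain ⟨d', A, B, hA, hB, hAB, hu, hj⟩ := ih G'.card (by omega) G' rfl (by omega)
    -- `a` joins the components, `d = !a`
    obtain ⟨d, rfl⟩ : ∃ d, d' = !d := ⟨!d', by simp⟩
    have hbool : ∀ x : Bool, x ≠ (!d) → x = d := by intro x; cases x <;> cases d <;> simp
    have hbool' : ∀ x : Bool, x ≠ d → x = !d := by intro x; cases x <;> cases d <;> simp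
    have hvG' : v ∉ G' := Finset.notMem_erase v G
    have hins : ∀ w, w ∈ G ↔ w = v ∨ w ∈ G' := by
      intro w
      rw [hG', Finset.mem_erase]
      constructor
      · intro h
        by_cases hw : w = v
        · exact Or.inl hw
        · exact Or.inr ⟨hw, h⟩
      · rintro (rfl | h)
        · exact hv
        · exact h.2
    -- separated sets
    have hcase1 : ∀ C : Finset V, C.Nonempty → C ⊆ G' → Jn b (!d) C (G' \ C) → Jn b (!d) C {v} →
        ∃ s, IsJ b s G := by
      intro C hC hCG hsep hCv
      refine ⟨!d, C, insert v (G' \ C), hC, ⟨v, Finset.mem_insert_self _ _⟩, ?_, ?_, ?_⟩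
      · rw [Finset.disjoint_left]
        intro x hx hx'
        rcases Finset.mem_insert.mp hx' with h | h
        · exact hvG' (h ▸ hCG hx)
        · exact (Finset.mem_sdiff.mp h).2 hx
      · ext x
        rw [hins, Finset.mem_union, Finset.mem_insert, Finset.mem_sdiff]
        constructor
        · rintro (h | h | h)
          · exact Or.inr (hCG h)
          · exact Or.inl h
          · exact Or.inr h.1
        · rintro (h | h)
          · exact Or.inr (Or.inl h)
          · by_cases hx : x ∈ C
            · exact Or.inl hx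
            · exact Or.inr (Or.inr ⟨h, hx⟩)
      · intro x hx y hy
        rcases Finset.mem_insert.mp hy with h | h
        · exact hCv x hx y (by rw [h]; simp)
        · exact hsep x hx y h
    by_contra hcon
    have hcase1' : ∀ C : Finset V, C.Nonempty → C ⊆ G' → Jn b (!d) C (G' \ C) →
        ∃ y ∈ C, b v y = d := by
      intro C hC hCG hsep
      by_contra h
      push Not at h
      exact hcon (hcase1 C hC hCG hsep (fun x hx y hy => by
        rw [Finset.mem_singleton] at hy
        subst hy
        rw [hs]
        exact hbool' _ (h x hx)))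
    -- a vertex not joined to `v` by `d`
    obtain ⟨z0, hz0, hbz0⟩ : ∃ z ∈ G', b v z = !d := by
      by_contra h
      push Not at h
      apply hcon
      refine ⟨d, {v}, G', by simp, Finset.card_pos.mp (by omega), ?_, ?_, ?_⟩
      · rw [Finset.disjoint_singleton_left]; exact hvG'
      · ext x
        rw [hins, Finset.mem_union, Finset.mem_singleton]
      · intro x hx y hy
        rw [Finset.mem_singleton] at hx
        subst hx
        exact hbool _ (h y hy)
    -- the smallest separated set with `z0`
    have hsepA : Jn b (!d) A (G' \ A) := fun x hx y hy => by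
      rw [Finset.mem_sdiff, ← hu, Finset.mem_union] at hy
      exact hj x hx y (hy.1.resolve_left hy.2)
    have hsepB : Jn b (!d) B (G' \ B) := fun x hx y hy => by
      rw [Finset.mem_sdiff, ← hu, Finset.mem_union] at hy
      rw [hs]
      exact hj y (hy.1.resolve_right hy.2) x hx
    have hAG : A ⊆ G' := hu ▸ Finset.subset_union_left
    have hBG : B ⊆ G' := hu ▸ Finset.subset_union_right
    have hcAB : A.card + B.card = G'.card := by
      rw [← hu, Finset.card_union_of_disjoint hAB]
    have cA := hA.card_pos
    have cB := hB.card_pos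
    let P : Finset V → Prop := fun C => z0 ∈ C ∧ C ⊆ G' ∧ Jn b (!d) C (G' \ C)
    obtain ⟨C0, hC0, hC0c⟩ : ∃ C, P C ∧ C.card < G'.card := by
      rw [← hu] at hz0
      rcases Finset.mem_union.mp hz0 with h | h
      · exact ⟨A, ⟨h, hAG, hsepA⟩, by omega⟩
      · exact ⟨B, ⟨h, hBG, hsepB⟩, by omega⟩
    obtain ⟨E, hE, hmin⟩ : ∃ E, P E ∧ ∀ C, P C → E.card ≤ C.card := by
      classical
      have hex : ∃ k, ∃ C, P C ∧ C.card = k := ⟨_, C0, hC0, rfl⟩
      obtain ⟨E, hE, hEc⟩ := Nat.find_spec hex
      refine ⟨E, hE, fun C hC => ?_⟩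
      rw [hEc]
      exact Nat.find_min' hex ⟨C, hC, rfl⟩
    obtain ⟨hzE, hEG, hsepE⟩ := hE
    have hEc : E.card < G'.card := lt_of_le_of_lt (hmin C0 hC0) hC0c
    have hrest : (G' \ E).Nonempty := by
      apply Finset.card_pos.mp
      rw [Finset.card_sdiff_of_subset hEG]; omega
    obtain ⟨y0, hy0, hby0⟩ := hcase1' E ⟨z0, hzE⟩ hEG hsepE
    obtain ⟨x, hx, hbx⟩ := hcase1' (G' \ E) hrest Finset.sdiff_subset (fun p hp q hq => by
      rw [Finset.mem_sdiff, Finset.mem_sdiff] at hq
      have hqE : q ∈ E := by
        by_contra h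
        exact hq.2 ⟨hq.1, h⟩
      rw [hs]
      exact hsepE q hqE p hp)
    -- an edge of colour `d` between the two parts of `E`
    obtain ⟨y, z, hy, hz, hby, hbz, hyz⟩ : ∃ y z, y ∈ E ∧ z ∈ E ∧ b v y = d ∧ b v z = (!d) ∧
        b y z = d := by
      by_contra h
      push Not at h
      have hP' : P (E.filter fun z => b v z = !d) := by
        refine ⟨by rw [Finset.mem_filter]; exact ⟨hzE, hbz0⟩,
          (Finset.filter_subset _ _).trans hEG, ?_⟩
        intro p hp q hq
        rw [Finset.mem_filter] at hp
        rw [Finset.mem_sdiff, Finset.mem_filter] at hq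
        by_cases hqE : q ∈ E
        · have hbq : b v q = d := hbool _ (fun h => hq.2 ⟨hqE, h⟩)
          rw [hs]
          exact hbool' _ (h q p hqE hp.1 hbq hp.2)
        · exact hsepE p hp.1 q (Finset.mem_sdiff.mpr ⟨hq.1, hqE⟩)
      have h1 := hmin _ hP'
      have h2 : (E.filter fun z => b v z = !d).card < E.card := by
        apply Finset.card_lt_card
        rw [Finset.ssubset_iff_of_subset (Finset.filter_subset _ _)]
        refine ⟨y0, hy0, ?_⟩
        rw [Finset.mem_filter]
        rintro ⟨-, h⟩
        rw [hby0] at h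
        cases d <;> simp at h
      omega
    have hxm := Finset.mem_sdiff.mp hx
    have hne : ∀ p, p ∈ G' → v ≠ p := fun p hp h => hvG' (h ▸ hp)
    have hxE : ∀ p, p ∈ E → x ≠ p := fun p hp h => hxm.2 (h ▸ hp)
    have hyz' : y ≠ z := by
      rintro rfl
      rw [hby] at hbz
      cases d <;> simp at hbz
    refine hP d x v y z (hne x hxm.1).symm (hxE y hy) (hxE z hz) (hne y (hEG hy)) (hne z (hEG hz))
      hyz' (by rw [hs]; exact hbx) hby hyz ?_ ?_ hbz
    · rw [hs]; exact hsepE y hy x hx
    · rw [hs]; exact hsepE z hz x hx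

end Pool.Agent.Lib.MP_e6d6ae_co
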