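import Pool.Agent.Lib.MP_e6d6ae_co.Prof

/-!
# The induction steps

`P0`, `P1`, `NN`: the profiles used in the induction over joins.
-/

set_option autoImplicit false
set_option linter.unusedSectionVars false

open Finset

namespace Pool.Agent.Lib.MP_e6d6ae_co

variable {V : Type*} [DecidableEq V] {b : V → V → Bool} {t : Bool}

/-- all pairs of `G` have the colour `s` -/
def Clq (b : V → V → Bool) (s : Bool) (G : Finset V) : Prop := ∀ u ∈ G, ∀ v ∈ G, u ≠ v → b u v = s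

/-- all pairs of `A` and `B` have the colour `s` -/
def Jn (b : V → V → Bool) (s : Bool) (A B : Finset V) : Prop := ∀ u ∈ A, ∀ v ∈ B, b u v = s

/-- a majority partition with parts of at most half the size -/
def P0 (b : V → V → Bool) (t : Bool) (G : Finset V) : Prop :=
  ∃ n0 n1 n2 : ℤ, Prof b t G n0 n1 n2 0 0 0 0 0 0 ∧
    2 * n0 ≤ n0 + n1 + n2 ∧ 2 * n1 ≤ n0 + n1 + n2 ∧ 2 * n2 ≤ n0 + n1 + n2

/-- the same for `G` and one further vertex (in part 0) joined to all of `G` by the colour `t` -/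
def P1 (b : V → V → Bool) (t : Bool) (G : Finset V) : Prop :=
  ∃ n0 n1 n2 : ℤ, Prof b t G n0 n1 n2 1 (-1) (-1) 0 0 0 ∧
    2 * n0 + 1 ≤ n0 + n1 + n2 ∧ 2 * n1 ≤ n0 + n1 + n2 ∧ 2 * n2 ≤ n0 + n1 + n2

/-- the same with one more small part -/
def NN (b : V → V → Bool) (t : Bool) (G : Finset V) : Prop :=
  ∃ n0 n1 n2 : ℤ, Prof b t G n0 n1 n2 1 (-1) (-1) 0 0 0 ∧
    2 * n0 + 1 ≤ n0 + n1 + n2 ∧ 2 * n1 + 1 ≤ n0 + n1 + n2 ∧ 2 * n2 ≤ n0 + n1 + n2

theorem NN.p1 {G : Finset V} (h : NN b t G) : P1 b t G := by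
  obtain ⟨n0, n1, n2, h, h0, h1, h2⟩ := h
  exact ⟨n0, n1, n2, h, h0, by omega, h2⟩

theorem P0.flip {G : Finset V} (h : P0 b t G) (t' : Bool) : P0 b t' G := by
  obtain ⟨n0, n1, n2, h, hn⟩ := h
  by_cases e : t' = t
  · subst e; exact ⟨n0, n1, n2, h, hn⟩
  · have : t' = !t := by cases t <;> cases t' <;> simp_all
    subst this
    exact ⟨n0, n1, n2, h.swap, hn⟩

/-- `J_t` -/
theorem NN.joinT (hs : ∀ u v, b u v = b v u) {A B : Finset V} (hA0 : A.Nonempty) (hB0 : B.Nonempty)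
    (hA : P0 b t A) (hB : P1 b t B) (hd : Disjoint A B) (hj : Jn b t A B) : NN b t (A ∪ B) := by
  obtain ⟨a0, a1, a2, hA, x0, x1, x2⟩ := hA
  obtain ⟨b0, b1, b2, hB, y0, y1, y2⟩ := hB
  have ca := hA.card
  have cb := hB.card
  have pa : (1 : ℤ) ≤ A.card := by exact_mod_cast hA0.card_pos
  have pb : (1 : ℤ) ≤ B.card := by exact_mod_cast hB0.card_pos
  by_cases h1 : 2 * (a1 + b1) + 1 ≤ (a0 + b0) + (a1 + b1) + (a2 + b2)
  · refine ⟨a0 + b0, a1 + b1, a2 + b2, Prof.joinT hs hA hB hd hj ?_, by omega, by omega, by omega⟩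
    refine ⟨⟨rfl, rfl, rfl⟩, ?_, ?_, ?_, ?_, ?_, ?_⟩ <;> intro _ <;> constructor <;> omega
  by_cases h2 : 2 * (a2 + b2) + 1 ≤ (a0 + b0) + (a1 + b1) + (a2 + b2)
  · refine ⟨a0 + b0, a2 + b2, a1 + b1, (Prof.joinT hs hA hB hd hj (N0 := a0 + b0) (N1 := a1 + b1)
      (N2 := a2 + b2) (P0 := 1) (P1 := -1) (P2 := -1) (R0 := 0) (R1 := 0) (R2 := 0) ?_).swap12,
      by omega, by omega, by omega⟩
    refine ⟨⟨rfl, rfl, rfl⟩, ?_, ?_, ?_, ?_, ?_, ?_⟩ <;> intro _ <;> constructor <;> omega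
  · refine ⟨a1 + b0, a0 + b1, a2 + b2, Prof.joinT hs hA.swap01 hB hd hj ?_, by omega, by omega,
      by omega⟩
    refine ⟨⟨rfl, rfl, rfl⟩, ?_, ?_, ?_, ?_, ?_, ?_⟩ <;> intro _ <;> constructor <;> omega

/-- `J_s` -/
theorem NN.joinS (hs : ∀ u v, b u v = b v u) {A B : Finset V}
    (hA : NN b t A) (hB : P1 b t B) (hd : Disjoint A B) (hj : Jn b (!t) A B) : NN b t (A ∪ B) := by
  obtain ⟨a0, a1, a2, hA, x0, x1, x2⟩ := hA
  obtain ⟨b0, b1, b2, hB, y0, y1, y2⟩ := hB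
  refine ⟨a0 + b0, a1 + b1, a2 + b2, Prof.joinS hs hA hB hd hj ?_, by omega, by omega, by omega⟩
  refine ⟨⟨rfl, rfl, rfl⟩, ?_, ?_, ?_, ?_, ?_, ?_⟩ <;> intro _ <;> constructor <;> omega

theorem P0.join (hs : ∀ u v, b u v = b v u) {A B : Finset V} {s : Bool}
    (hA : P0 b s A) (hB : P0 b s B) (hd : Disjoint A B) (hj : Jn b s A B) : P0 b s (A ∪ B) := by
  obtain ⟨a0, a1, a2, hA, x0, x1, x2⟩ := hA
  obtain ⟨b0, b1, b2, hB, y0, y1, y2⟩ := hB
  refine ⟨a0 + b0, a1 + b1, a2 + b2, Prof.joinT hs hA hB hd hj ?_, by omega, by omega, by omega⟩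
  refine ⟨⟨rfl, rfl, rfl⟩, ?_, ?_, ?_, ?_, ?_, ?_⟩ <;> intro _ <;> constructor <;> omega

theorem Prof.single1 (v : V) (p0 p2 r0 r2 : ℤ) : Prof b t {v} 0 1 0 p0 0 p2 r0 0 r2 :=
  (Prof.single v p0 p2 r0 r2).swap01

theorem Prof.single2 (v : V) (p0 p1 r0 r1 : ℤ) : Prof b t {v} 0 0 1 p0 p1 0 r0 r1 0 :=
  (Prof.single1 v p0 p1 r0 r1).swap12

/-- the clique of the colour `t` -/
theorem NN.clique {K : Finset V} (hK : Clq b t K) (h3 : 3 ≤ K.card) : NN b t K := by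
  have h := Prof.clique (t := t) K hK (k0 := 1) (k1 := ((K.card : ℤ) - 1) / 2)
    (k2 := (K.card : ℤ) - 1 - ((K.card : ℤ) - 1) / 2) (by omega) (by omega) (by omega) (by omega)
  refine ⟨_, _, _, h.mono ?_, by omega, by omega, by omega⟩
  refine ⟨?_, ?_, ?_⟩ <;> intro _ <;> constructor <;> omega

/-- the clique of the other colour and even order -/
theorem P1.clique {K : Finset V} (hK : Clq b (!t) K) (h2 : 2 ≤ K.card) (he : Even K.card) :
    P1 b t K := by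
  obtain ⟨h, hh⟩ := he
  have h := (Prof.clique (t := !t) K hK (k0 := 0) (k1 := h) (k2 := h) (by omega) (by omega) (by omega)
    (by omega)).swap'
  refine ⟨_, _, _, h.mono ?_, by omega, by omega, by omega⟩
  refine ⟨?_, ?_, ?_⟩ <;> intro _ <;> constructor <;> omega

theorem Clq.of_card_two {G : Finset V} (hs : ∀ u v, b u v = b v u) (h : G.card = 2) (t : Bool) :
    Clq b t G ∨ Clq b (!t) G := by
  obtain ⟨u, v, huv, rfl⟩ := Finset.card_eq_two.mp h
  have key : ∀ s, b u v = s → Clq b s {u, v} := by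
    intro s h x hx y hy hxy
    simp only [Finset.mem_insert, Finset.mem_singleton] at hx hy
    rcases hx with rfl | rfl <;> rcases hy with rfl | rfl
    · exact absurd rfl hxy
    · exact h
    · rw [hs]; exact h
    · exact absurd rfl hxy
  by_cases h : b u v = t
  · exact Or.inl (key t h)
  · refine Or.inr (key _ ?_)
    cases t <;> simpa using h

theorem P1.of_card_two {G : Finset V} (hs : ∀ u v, b u v = b v u) (h : G.card = 2) : P1 b t G := by
  rcases Clq.of_card_two hs h t with h' | h'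
  · have h := Prof.clique (t := t) G h' (k0 := 0) (k1 := 1) (k2 := 1) (by omega) (by omega) (by omega)
      (by omega)
    refine ⟨_, _, _, h.mono ?_, by omega, by omega, by omega⟩
    refine ⟨?_, ?_, ?_⟩ <;> intro _ <;> constructor <;> omega
  · exact P1.clique h' (by omega) (by rw [h]; decide)

theorem P0.of_card_two {G : Finset V} (hs : ∀ u v, b u v = b v u) (h : G.card = 2) : P0 b t G := by
  rcases Clq.of_card_two hs h t with h' | h'
  · have h := Prof.clique (t := t) G h' (k0 := 0) (k1 := 1) (k2 := 1) (by omega) (by omega) (by omega)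
      (by omega)
    refine ⟨_, _, _, h.mono ?_, by omega, by omega, by omega⟩
    refine ⟨?_, ?_, ?_⟩ <;> intro _ <;> constructor <;> omega
  · have h := (Prof.clique (t := !t) G h' (k0 := 0) (k1 := 1) (k2 := 1) (by omega) (by omega)
      (by omega) (by omega)).swap'
    refine ⟨_, _, _, h.mono ?_, by omega, by omega, by omega⟩
    refine ⟨?_, ?_, ?_⟩ <;> intro _ <;> constructor <;> omega

/-- `G` is `F` and a single vertex `y`, joined by `t` -/
theorem NN.add_one (hs : ∀ u v, b u v = b v u) {F : Finset V} {y : V} (hF : P0 b t F)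
    (hF2 : 2 ≤ F.card) (hd : Disjoint F {y}) (hj : Jn b t F {y}) : NN b t (F ∪ {y}) := by
  obtain ⟨f0, f1, f2, hF, x0, x1, x2⟩ := hF
  have cf := hF.card
  have key : ∀ g0 g1 g2 : ℤ, Prof b t F g0 g1 g2 0 0 0 0 0 0 → 2 * g0 ≤ g0 + g1 + g2 →
      2 * g1 ≤ g0 + g1 + g2 → 2 * g2 + 1 ≤ g0 + g1 + g2 → NN b t (F ∪ {y}) := by
    intro g0 g1 g2 hG e0 e1 e2
    refine ⟨g0 + 0, g1 + 0, g2 + 1, Prof.joinT hs hG (Prof.single2 y 0 0 0 0) hd hj ?_, by omega,
      by omega, by omega⟩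
    refine ⟨⟨rfl, rfl, rfl⟩, ?_, ?_, ?_, ?_, ?_, ?_⟩ <;> intro _ <;> constructor <;> omega
  by_cases h2 : 2 * f2 + 1 ≤ f0 + f1 + f2
  · exact key f0 f1 f2 hF x0 x1 h2
  by_cases h1 : 2 * f1 + 1 ≤ f0 + f1 + f2
  · exact key f0 f2 f1 hF.swap12 (by omega) (by omega) (by omega)
  · exact key f2 f1 f0 hF.swap01.swap12.swap01 (by omega) (by omega) (by omega)

/-- two cliques of the other colour and odd orders, joined by `t` -/
theorem NN.two_cliques (hs : ∀ u v, b u v = b v u) {C D : Finset V} (hC : Clq b (!t) C)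
    (hD : Clq b (!t) D) (hC3 : 3 ≤ C.card) (hD3 : 3 ≤ D.card) (hCo : Odd C.card) (hDo : Odd D.card)
    (hd : Disjoint C D) (hj : Jn b t C D) : NN b t (C ∪ D) := by
  obtain ⟨i, hi⟩ := hCo
  obtain ⟨j, hj'⟩ := hDo
  have h1 := (Prof.clique (t := !t) C hC (k0 := i) (k1 := i) (k2 := 1) (by omega) (by omega) (by omega)
    (by omega)).swap'
  have h2 := (Prof.clique (t := !t) D hD (k0 := j) (k1 := j) (k2 := 1) (by omega) (by omega) (by omega)
    (by omega)).swap'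
  refine ⟨(i : ℤ) + j, (i : ℤ) + j, 1 + 1, Prof.joinT hs h1 h2 hd hj ?_, by omega, by omega, by omega⟩
  refine ⟨⟨rfl, rfl, rfl⟩, ?_, ?_, ?_, ?_, ?_, ?_⟩ <;> intro _ <;> constructor <;> omega

/-- two edges of the colour `t`, joined by the other colour -/
theorem NN.two_edges (hs : ∀ u v, b u v = b v u) {A B : Finset V} (hA : Clq b t A) (hB : Clq b t B)
    (hA2 : A.card = 2) (hB2 : B.card = 2) (hd : Disjoint A B) (hj : Jn b (!t) A B) :
    NN b t (A ∪ B) := by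
  have h1 := Prof.clique (t := t) A hA (k0 := 1) (k1 := 0) (k2 := 1) (by omega) (by omega) (by omega)
    (by omega)
  have h2 := Prof.clique (t := t) B hB (k0 := 0) (k1 := 1) (k2 := 1) (by omega) (by omega) (by omega)
    (by omega)
  refine ⟨1 + 0, 0 + 1, 1 + 1, Prof.joinS hs h1 h2 hd hj ?_, by omega, by omega, by omega⟩
  refine ⟨⟨rfl, rfl, rfl⟩, ?_, ?_, ?_, ?_, ?_, ?_⟩ <;> intro _ <;> constructor <;> omega

/-- an edge of the colour `t` and a clique of the other colour of even order, joined by it -/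
theorem NN.edge_clique (hs : ∀ u v, b u v = b v u) {A S : Finset V} (hA : Clq b t A)
    (hS : Clq b (!t) S) (hA2 : A.card = 2) (hS2 : 2 ≤ S.card) (hSe : Even S.card)
    (hd : Disjoint A S) (hj : Jn b (!t) A S) : NN b t (A ∪ S) := by
  obtain ⟨h, hh⟩ := hSe
  have h1 := Prof.clique (t := t) A hA (k0 := 1) (k1 := 1) (k2 := 0) (by omega) (by omega) (by omega)
    (by omega)
  have h2 := (Prof.clique (t := !t) S hS (k0 := 0) (k1 := (h : ℤ) - 1) (k2 := (h : ℤ) + 1) (by omega)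
    (by omega) (by omega) (by omega)).swap'
  refine ⟨1 + 0, 1 + ((h : ℤ) - 1), 0 + ((h : ℤ) + 1), Prof.joinS hs h1 h2 hd hj ?_, by omega,
    by omega, by omega⟩
  refine ⟨⟨rfl, rfl, rfl⟩, ?_, ?_, ?_, ?_, ?_, ?_⟩ <;> intro _ <;> constructor <;> omega

/-- (D0a): a clique `F` of the colour `t` and a vertex `x` joined to it by the other colour -/
theorem NN.d0a (hs : ∀ u v, b u v = b v u) {F : Finset V} {x : V} (hF : Clq b t F)
    (hF2 : 2 ≤ F.card) (hd : Disjoint F {x}) (hj : Jn b (!t) F {x}) : NN b t (F ∪ {x}) := by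
  have h1 := Prof.clique (t := t) F hF (k0 := (F.card : ℤ) / 2) (k1 := 0)
    (k2 := (F.card : ℤ) - (F.card : ℤ) / 2) (by omega) (by omega) (by omega) (by omega)
  refine ⟨(F.card : ℤ) / 2 + 0, 0 + 1, (F.card : ℤ) - (F.card : ℤ) / 2 + 0,
    Prof.joinS hs h1 (Prof.single1 x 0 0 0 0) hd hj ?_, by omega, by omega, by omega⟩
  refine ⟨⟨rfl, rfl, rfl⟩, ?_, ?_, ?_, ?_, ?_, ?_⟩ <;> intro _ <;> constructor <;> omega

/-- (D0b) -/
theorem NN.d0b (hs : ∀ u v, b u v = b v u) {X Y : Finset V} {x : V} (hX : NN b (!t) X)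
    (hY : NN b (!t) Y) (hd : Disjoint X Y) (hj : Jn b t X Y) (hdx : Disjoint (X ∪ Y) {x})
    (hjx : Jn b (!t) (X ∪ Y) {x}) : NN b t (X ∪ Y ∪ {x}) := by
  obtain ⟨a0, a1, a2, hA, x0, x1, x2⟩ := hX
  obtain ⟨b0, b1, b2, hB, y0, y1, y2⟩ := hY
  have ca := hA.card
  have cb := hB.card
  have hF : Prof b t (X ∪ Y) (a0 + b0) (a1 + b1) (a2 + b2) 1 1 0 1 (-1) (-1) := by
    refine Prof.joinT hs hA.swap' hB.swap' hd hj ?_
    refine ⟨⟨rfl, rfl, rfl⟩, ?_, ?_, ?_, ?_, ?_, ?_⟩ <;> intro _ <;> constructor <;> omega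
  have hG : Prof b t (X ∪ Y ∪ {x}) (a0 + b0 + 1) (a1 + b1 + 0) (a2 + b2 + 0) (-1) 1 (-1) 0 0 0 := by
    refine Prof.joinS hs hF (Prof.single x 0 0 0 0) hdx hjx ?_
    refine ⟨⟨rfl, rfl, rfl⟩, ?_, ?_, ?_, ?_, ?_, ?_⟩ <;> intro _ <;> constructor <;> omega
  exact ⟨_, _, _, hG.swap01, by omega, by omega, by omega⟩

/-- (D0c): `X` is an edge of the other colour -/
theorem NN.d0c (hs : ∀ u v, b u v = b v u) {X Y : Finset V} {x : V} (hX : Clq b (!t) X)
    (hX2 : X.card = 2) (hY : P1 b (!t) Y) (hd : Disjoint X Y) (hj : Jn b t X Y)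
    (hdx : Disjoint (X ∪ Y) {x}) (hjx : Jn b (!t) (X ∪ Y) {x}) : NN b t (X ∪ Y ∪ {x}) := by
  have hA := (Prof.clique (t := !t) X hX (k0 := 1) (k1 := 0) (k2 := 1) (by omega) (by omega)
    (by omega) (by omega)).swap'
  obtain ⟨b0, b1, b2, hB, y0, y1, y2⟩ := hY
  have cb := hB.card
  have hF : Prof b t (X ∪ Y) (1 + b0) (0 + b1) (1 + b2) 0 1 0 1 (-1) (-1) := by
    refine Prof.joinT hs hA hB.swap' hd hj ?_
    refine ⟨⟨rfl, rfl, rfl⟩, ?_, ?_, ?_, ?_, ?_, ?_⟩ <;> intro _ <;> constructor <;> omega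
  have hG : Prof b t (X ∪ Y ∪ {x}) (1 + b0 + 1) (0 + b1 + 0) (1 + b2 + 0) (-1) 1 (-1) 0 0 0 := by
    refine Prof.joinS hs hF (Prof.single x 0 0 0 0) hdx hjx ?_
    refine ⟨⟨rfl, rfl, rfl⟩, ?_, ?_, ?_, ?_, ?_, ?_⟩ <;> intro _ <;> constructor <;> omega
  exact ⟨_, _, _, hG.swap01.swap12, by omega, by omega, by omega⟩

/-- (D0d), odd case -/
theorem NN.d0d_odd (hs : ∀ u v, b u v = b v u) {F K : Finset V} {x : V} (hF : P1 b (!t) F)
    (hK : Clq b t K) (hKo : Odd K.card) (hd : Disjoint F K) (hj : Jn b t F K)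
    (hdx : Disjoint (F ∪ K) {x}) (hjx : Jn b (!t) (F ∪ K) {x}) : NN b t (F ∪ K ∪ {x}) := by
  obtain ⟨c, hc⟩ := hKo
  obtain ⟨f0, f1, f2, hF, y0, y1, y2⟩ := hF
  have cf := hF.card
  have h2 := Prof.clique (t := t) K hK (k0 := 0) (k1 := c) (k2 := (c : ℤ) + 1) (by omega) (by omega)
    (by omega) (by omega)
  have hFK : Prof b t (F ∪ K) (f0 + 0) (f1 + c) (f2 + ((c : ℤ) + 1)) (-1) 1 (-1) 1 (-1) (-1) := by
    refine Prof.joinT hs hF.swap' h2 hd hj ?_
    refine ⟨⟨rfl, rfl, rfl⟩, ?_, ?_, ?_, ?_, ?_, ?_⟩ <;> intro _ <;> constructor <;> omega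
  have hG : Prof b t (F ∪ K ∪ {x}) (f0 + 0 + 1) (f1 + c + 0) (f2 + ((c : ℤ) + 1) + 0)
      (-1) 1 (-1) 0 0 0 := by
    refine Prof.joinS hs hFK (Prof.single x 0 0 0 0) hdx hjx ?_
    refine ⟨⟨rfl, rfl, rfl⟩, ?_, ?_, ?_, ?_, ?_, ?_⟩ <;> intro _ <;> constructor <;> omega
  exact ⟨_, _, _, hG.swap01, by omega, by omega, by omega⟩

/-- removing the vertex `x` -/
theorem P1.remove (hs : ∀ u v, b u v = b v u) {F : Finset V} {x : V} (h : P1 b t (F ∪ {x}))
    (hd : Disjoint F {x}) (hj : Jn b (!t) F {x}) : ∃ f0 f1 f2 : ℤ,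
      Prof b t F f0 f1 f2 1 (-1) (-1) (-1) 1 (-1) ∧ 2 * f0 ≤ f0 + f1 + f2 ∧
        2 * f1 + 1 ≤ f0 + f1 + f2 ∧ 2 * f2 ≤ f0 + f1 + f2 + 1 := by
  have key : ∀ n0 n1 n2 : ℤ, ∀ f : V → Fin 3, f x = 1 →
      (cnt (F ∪ {x}) f 0 = n0 ∧ cnt (F ∪ {x}) f 1 = n1 ∧ cnt (F ∪ {x}) f 2 = n2) →
      (∀ v ∈ F ∪ {x}, (f v = 0 → 1 ≤ ex b (F ∪ {x}) f t v ∧ 0 ≤ ex b (F ∪ {x}) f (!t) v) ∧
        (f v = 1 → -1 ≤ ex b (F ∪ {x}) f t v ∧ 0 ≤ ex b (F ∪ {x}) f (!t) v) ∧
        (f v = 2 → -1 ≤ ex b (F ∪ {x}) f t v ∧ 0 ≤ ex b (F ∪ {x}) f (!t) v)) →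
      2 * n0 + 1 ≤ n0 + n1 + n2 → 2 * n1 ≤ n0 + n1 + n2 → 2 * n2 ≤ n0 + n1 + n2 →
      ∃ f0 f1 f2 : ℤ, Prof b t F f0 f1 f2 1 (-1) (-1) (-1) 1 (-1) ∧ 2 * f0 ≤ f0 + f1 + f2 ∧
        2 * f1 + 1 ≤ f0 + f1 + f2 ∧ 2 * f2 ≤ f0 + f1 + f2 + 1 := by
    intro n0 n1 n2 f hfx hn hf e0 e1 e2
    rw [cnt_union hd, cnt_union hd, cnt_union hd] at hn
    have c0 : cnt {x} f 0 = 0 := by simp [cnt, Finset.filter_singleton, hfx]
    have c1 : cnt {x} f 1 = 1 := by simp [cnt, Finset.filter_singleton, hfx]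
    have c2 : cnt {x} f 2 = 0 := by simp [cnt, Finset.filter_singleton, hfx]
    rw [c0, c1, c2] at hn
    refine ⟨cnt F f 0, cnt F f 1, cnt F f 2, ⟨f, ⟨rfl, rfl, rfl⟩, fun v hv => ?_⟩, by omega, by omega,
      by omega⟩
    have e1 := ex_union_same (f := f) (t := !t) hd hv (hj v hv)
    have e2 := ex_union_other (f := f) (t := !t) hd hv (hj v hv)
    rw [Bool.not_not] at e2
    have h1 := hf v (Finset.mem_union_left _ hv)
    rw [e1, e2] at h1
    rw [Finset.card_singleton] at h1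
    refine ⟨fun hi => ?_, fun hi => ?_, fun hi => ?_⟩
    · have := h1.1 hi
      rw [hi, c0] at this
      constructor
      · exact this.1
      · have := this.2; push_cast at this; omega
    · have := h1.2.1 hi
      rw [hi, c1] at this
      constructor
      · exact this.1
      · have := this.2; push_cast at this; omega
    · have := h1.2.2 hi
      rw [hi, c2] at this
      constructor
      · exact this.1
      · have := this.2; push_cast at this; omega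
  obtain ⟨n0, n1, n2, ⟨f, hn, hf⟩, e0, e1, e2⟩ := h
  have hx : x ∈ F ∪ {x} := by simp
  have exx : ex b (F ∪ {x}) f t x = 0 := by
    unfold ex
    apply Finset.sum_eq_zero
    intro w hw
    by_cases hwx : w = x
    · rw [if_pos hwx]
    · rw [if_neg hwx, if_neg]
      have hwF : w ∈ F := by
        rcases Finset.mem_union.mp hw with h | h
        · exact h
        · exact absurd (Finset.mem_singleton.mp h) hwx
      have := hj w hwF x (by simp)
      rw [hs, this]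
      cases t <;> decide
  have hfx := hf x hx
  rw [exx] at hfx
  have h012 : f x = 0 ∨ f x = 1 ∨ f x = 2 := by
    generalize f x = i
    fin_cases i <;> simp
  rcases h012 with h0 | h1 | h2
  · exact absurd (hfx.1 h0).1 (by norm_num)
  · exact key n0 n1 n2 f h1 hn hf e0 e1 e2
  · -- exchange the parts 1 and 2
    have hsw : Prof b t (F ∪ {x}) n0 n1 n2 1 (-1) (-1) 0 0 0 := ⟨f, hn, hf⟩
    let σ : Equiv.Perm (Fin 3) := Equiv.swap 1 2
    refine key n0 n2 n1 (fun v => σ (f v)) ?_ ?_ ?_ (by omega) (by omega) (by omega)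
    · show σ (f x) = 1
      rw [h2]; rfl
    · have hc : ∀ i, cnt (F ∪ {x}) (fun v => σ (f v)) i = cnt (F ∪ {x}) f (σ i) := by
        intro i
        unfold cnt
        congr 2
        apply Finset.filter_congr
        intro v _
        constructor
        · intro h; rw [← h]; show f v = σ (σ (f v)); simp [σ]
        · intro h; show σ (f v) = i; rw [h]; simp [σ]
      rw [hc, hc, hc]
      exact ⟨hn.1, hn.2.2, hn.2.1⟩
    · intro v hv
      have he : ∀ a, ex b (F ∪ {x}) (fun v => σ (f v)) a v = ex b (F ∪ {x}) f a v := by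
        intro a
        unfold ex
        simp only [EmbeddingLike.apply_eq_iff_eq]
      rw [he, he]
      have h := hf v hv
      refine ⟨fun hi => ?_, fun hi => ?_, fun hi => ?_⟩
      · apply h.1
        have : f v = σ 0 := by rw [← hi]; simp [σ]
        rw [this]; rfl
      · apply h.2.2
        have : f v = σ 1 := by rw [← hi]; simp [σ]
        rw [this]; rfl
      · apply h.2.1
        have : f v = σ 2 := by rw [← hi]; simp [σ]
        rw [this]; rfl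

/-- (D0d), even case -/
theorem NN.d0d_even (hs : ∀ u v, b u v = b v u) {F K : Finset V} {x : V} (hF : P1 b t (F ∪ {x}))
    (hdFx : Disjoint F {x}) (hjFx : Jn b (!t) F {x})
    (hK : Clq b t K) (hKe : Even K.card) (hK0 : K.Nonempty) (hd : Disjoint F K) (hj : Jn b t F K)
    (hdx : Disjoint (F ∪ K) {x}) (hjx : Jn b (!t) (F ∪ K) {x}) : NN b t (F ∪ K ∪ {x}) := by
  obtain ⟨c, hc⟩ := hKe
  have hc1 : 1 ≤ c := by
    have := hK0.card_pos; omega
  obtain ⟨f0, f1, f2, hF, y0, y1, y2⟩ := hF.remove hs hdFx hjFx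
  have cf := hF.card
  have h2 := Prof.clique (t := t) K hK (k0 := c) (k1 := 0) (k2 := c) (by omega) (by omega)
    (by omega) (by omega)
  have hFK : Prof b t (F ∪ K) (f0 + c) (f1 + 0) (f2 + c) 1 (-1) (-1) (-1) 1 (-1) := by
    refine Prof.joinT hs hF h2 hd hj ?_
    refine ⟨⟨rfl, rfl, rfl⟩, ?_, ?_, ?_, ?_, ?_, ?_⟩ <;> intro _ <;> constructor <;> omega
  have hG : Prof b t (F ∪ K ∪ {x}) (f0 + c + 0) (f1 + 0 + 1) (f2 + c + 0) 1 (-1) (-1) 0 0 0 := by
    refine Prof.joinS hs hFK (Prof.single1 x 0 0 0 0) hdx hjx ?_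
    refine ⟨⟨rfl, rfl, rfl⟩, ?_, ?_, ?_, ?_, ?_, ?_⟩ <;> intro _ <;> constructor <;> omega
  exact ⟨_, _, _, hG, by omega, by omega, by omega⟩

/-- (D0d), even case, `F` a clique of the other colour and even order -/
theorem NN.d0d_clique (hs : ∀ u v, b u v = b v u) {F K : Finset V} {x : V} (hF : Clq b (!t) F)
    (hFe : Even F.card) (hF0 : F.Nonempty)
    (hK : Clq b t K) (hKe : Even K.card) (hK0 : K.Nonempty) (hd : Disjoint F K) (hj : Jn b t F K)
    (hdx : Disjoint (F ∪ K) {x}) (hjx : Jn b (!t) (F ∪ K) {x}) : NN b t (F ∪ K ∪ {x}) := by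
  obtain ⟨c, hc⟩ := hKe
  obtain ⟨e, he⟩ := hFe
  have hc1 : 1 ≤ c := by
    have := hK0.card_pos; omega
  have he1 : 1 ≤ e := by
    have := hF0.card_pos; omega
  have h1 := (Prof.clique (t := !t) F hF (k0 := e) (k1 := e) (k2 := 0) (by omega) (by omega)
    (by omega) (by omega)).swap'
  have h2 := Prof.clique (t := t) K hK (k0 := (c : ℤ) - 1) (k1 := 0) (k2 := (c : ℤ) + 1) (by omega)
    (by omega) (by omega) (by omega)
  have hFK : Prof b t (F ∪ K) (e + ((c : ℤ) - 1)) (e + 0) (0 + ((c : ℤ) + 1)) 1 0 0 0 1 0 := by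
    refine Prof.joinT hs h1 h2 hd hj ?_
    refine ⟨⟨rfl, rfl, rfl⟩, ?_, ?_, ?_, ?_, ?_, ?_⟩ <;> intro _ <;> constructor <;> omega
  have hG : Prof b t (F ∪ K ∪ {x}) (e + ((c : ℤ) - 1) + 0) (e + 0 + 1) (0 + ((c : ℤ) + 1) + 0)
      1 (-1) (-1) 0 0 0 := by
    refine Prof.joinS hs hFK (Prof.single1 x 0 0 0 0) hdx hjx ?_
    refine ⟨⟨rfl, rfl, rfl⟩, ?_, ?_, ?_, ?_, ?_, ?_⟩ <;> intro _ <;> constructor <;> omega
  exact ⟨_, _, _, hG, by omega, by omega, by omega⟩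

/-- `P0` for a set and one more vertex -/
theorem P0.add_one (hs : ∀ u v, b u v = b v u) {A : Finset V} {y : V} (hA : P1 b t A)
    (hd : Disjoint A {y}) (hj : Jn b t A {y}) : P0 b t (A ∪ {y}) := by
  obtain ⟨a0, a1, a2, hA, x0, x1, x2⟩ := hA
  refine ⟨a0 + 1, a1 + 0, a2 + 0, Prof.joinT hs hA (Prof.single y 0 0 0 0) hd hj ?_, by omega,
    by omega, by omega⟩
  refine ⟨⟨rfl, rfl, rfl⟩, ?_, ?_, ?_, ?_, ?_, ?_⟩ <;> intro _ <;> constructor <;> omega

theorem P0.add_one_clique (hs : ∀ u v, b u v = b v u) {A : Finset V} {y : V} (hA : Clq b (!t) A)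
    (hAo : Odd A.card) (hd : Disjoint A {y}) (hj : Jn b t A {y}) : P0 b t (A ∪ {y}) := by
  obtain ⟨i, hi⟩ := hAo
  have h1 := (Prof.clique (t := !t) A hA (k0 := 0) (k1 := (i : ℤ) + 1) (k2 := i) (by omega) (by omega)
    (by omega) (by omega)).swap'
  refine ⟨0 + 1, (i : ℤ) + 1 + 0, i + 0, Prof.joinT hs h1 (Prof.single y 0 0 0 0) hd hj ?_, by omega,
    by omega, by omega⟩
  refine ⟨⟨rfl, rfl, rfl⟩, ?_, ?_, ?_, ?_, ?_, ?_⟩ <;> intro _ <;> constructor <;> omega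

end Pool.Agent.Lib.MP_e6d6ae_co
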